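import Mathlib

namespace Pool.Agent.Results.MP_c60ead_co.Twisted

open Equiv

/-- `Y ⊆ S_n` is `k`-transitive. -/
def Trans {n : ℕ} (k : ℕ) (Y : Set (Perm (Fin n))) : Prop :=
  ∃ r : ℕ, 0 < r ∧ ∀ α β : Fin k → Fin n, Function.Injective α → Function.Injective β →
    {y ∈ Y | ∀ i, y (α i) = β i}.ncard = r

theorem full {n k : ℕ} (α β α' β' : Fin k → Fin n) (h1 : Function.Injective α)
    (h2 : Function.Injective β) (h3 : Function.Injective α') (h4 : Function.Injective β') :
    {y : Perm (Fin n) | ∀ i, y (α i) = β i}.ncard =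
      {y : Perm (Fin n) | ∀ i, y (α' i) = β' i}.ncard := by
  obtain ⟨g, hg⟩ := Perm.exists_extending_pair _ _ h3 h1
  obtain ⟨h, hh⟩ := Perm.exists_extending_pair _ _ h2 h4
  refine Set.ncard_congr (fun y _ => h * y * g) (fun y hy i => ?_) (fun a b _ _ e => ?_)
    fun y hy => ⟨h⁻¹ * y * g⁻¹, fun i => ?_, by group⟩
  · simp [hg, hy i, hh]
  · exact mul_left_cancel (mul_right_cancel e)
  · simp [← hg i, hy i, ← hh i]

theorem half {n k : ℕ} (o : Fin n) (hk : k + 3 ≤ n) (α β : Fin k → Fin n) :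
    2 * {y ∈ {y : Perm (Fin n) | Perm.sign y = 1 ↔ y o = o} | ∀ i, y (α i) = β i}.ncard =
      {y : Perm (Fin n) | ∀ i, y (α i) = β i}.ncard := by
  obtain ⟨a, ha, b, hb, hab⟩ : ∃ a ∈ (insert o (Finset.univ.image α))ᶜ,
      ∃ b ∈ (insert o (Finset.univ.image α))ᶜ, a ≠ b := by
    rw [← Finset.one_lt_card, Finset.card_compl, Fintype.card_fin]
    have h1 := Finset.card_insert_le o (Finset.univ.image α)
    have h2 := Finset.card_image_le (s := Finset.univ) (f := α)
    rw [Finset.card_univ, Fintype.card_fin] at h2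
    omega
  simp only [Finset.mem_compl, Finset.mem_insert, Finset.mem_image, Finset.mem_univ, true_and,
    not_or, not_exists] at ha hb
  have s1 : swap a b o = o := swap_apply_of_ne_of_ne (Ne.symm ha.1) (Ne.symm hb.1)
  have s2 : ∀ i, swap a b (α i) = α i := fun i => swap_apply_of_ne_of_ne (ha.2 i) (hb.2 i)
  have s3 : ∀ y : Perm (Fin n), Perm.sign (y * swap a b) = 1 ↔ ¬ Perm.sign y = 1 := fun y => by
    rw [Perm.sign_mul, Perm.sign_swap hab]
    rcases Int.units_eq_one_or (Perm.sign y) with h | h <;> simp [h]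
  set Y := {y : Perm (Fin n) | Perm.sign y = 1 ↔ y o = o} with hY
  set S := {y : Perm (Fin n) | ∀ i, y (α i) = β i} with hS
  have h1 : (S ∩ Y).ncard = (S \ Y).ncard := by
    refine Set.ncard_congr (fun y _ => y * swap a b) (fun y hy => ⟨fun i => ?_, ?_⟩)
      (fun a b _ _ e => mul_right_cancel e) fun y hy => ⟨y * swap a b, ⟨fun i => ?_, ?_⟩, ?_⟩
    · simp [s2, hy.1 i]
    · have := hy.2
      simp only [hY, Set.mem_ofPred_eq, s3, Perm.mul_apply, s1] at this ⊢
      tauto
    · simp [s2, hy.1 i]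
    · have := hy.2
      simp only [hY, Set.mem_ofPred_eq, s3, Perm.mul_apply, s1] at this ⊢
      tauto
    · simp
  have h2 := Set.ncard_inter_add_ncard_sdiff_eq_ncard S Y
  have h3 : {y ∈ Y | ∀ i, y (α i) = β i} = S ∩ Y := by
    ext y
    exact and_comm
  rw [h3]
  omega

theorem result (n : ℕ) (hn : 4 ≤ n) : ∃ Y : Set (Perm (Fin n)), Trans ((n - 2) / 2) Y ∧
    Y ≠ alternatingGroup (Fin n) ∧ Y ≠ Set.univ ∧ Y ≠ (alternatingGroup (Fin n) : Set _)ᶜ := by
  let o : Fin n := ⟨0, by omega⟩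
  let a : Fin n := ⟨1, by omega⟩
  let b : Fin n := ⟨2, by omega⟩
  have oa : o ≠ a := by simp [o, a]
  have ob : o ≠ b := by simp [o, b]
  have ab : a ≠ b := by simp [a, b]
  let ι : Fin ((n - 2) / 2) → Fin n := Fin.castLE (by omega)
  have hι : Function.Injective ι := Fin.castLE_injective _
  refine ⟨{y | Perm.sign y = 1 ↔ y o = o}, ⟨{y : Perm (Fin n) | ∀ i, y (ι i) = ι i}.ncard / 2,
    ?_, fun α β h1 h2 => ?_⟩, fun h => ?_, fun h => ?_, fun h => ?_⟩
  · have h1 := half o (by omega) ι ι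
    have h2 : 0 < {y : Perm (Fin n) | ∀ i, y (ι i) = ι i}.ncard :=
      (Set.ncard_pos (Set.toFinite _)).2 ⟨1, fun _ => rfl⟩
    omega
  · have h3 := half o (by omega) α β
    have h4 := full α β ι ι h1 h2 hι hι
    omega
  · have := Set.ext_iff.1 h (swap o a)
    simp [Perm.sign_swap oa, oa.symm] at this
  · have := Set.ext_iff.1 h (swap a b)
    simp [Perm.sign_swap ab, swap_apply_of_ne_of_ne oa ob] at this
  · have := Set.ext_iff.1 h 1
    simp at this

end Pool.Agent.Results.MP_c60ead_co.Twisted
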